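import Pool.Agent.U409.OA.Stm3

/-!
# Project OA, package SGN: `Vp` and `D` are antisymmetric
-/

set_option autoImplicit false

namespace Pool.Agent.U934.OA

open Pool.Agent.U409.OA Finset

theorem t_SGN : S_SGN := by
  intro m n w σ
  constructor
  · unfold Vp
    have h := σ.prod_Ioi_comp_eq_sign_mul_prod (R := ℂ)
      (f := fun i j => (w i - w j) * (w i * w j - 1)) (fun i j => by ring)
    simpa using h
  · unfold D
    have h := Matrix.det_permute σ (Matrix.of fun i j : Fin n => gl m (ex j) (w i))
    exact h

end Pool.Agent.U934.OA
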